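import Mathlib
import Pool.Agent.R202.WI.Core

/-!
# Weak interpolation sets for uniquely ergodic systems of maximal density

For `k ≥ 2` no weak interpolation set of order `k` for uniquely ergodic systems has upper Banach density
`1 / k`; for `k = 1` the set of all positive integers is one.
-/

set_option autoImplicit false

open MeasureTheory Filter Topology Set

universe u

namespace Pool.Agent.Results.MP_28fd2b_an.ReciprocalDensity

/-- `S` is a weak interpolation set of order `k` for uniquely ergodic systems: for every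
`f : S → {0, ..., k - 1}` there are a compact metric space `X`, a continuous `T : X → X` with exactly one
invariant Borel probability measure, a point `x` with dense forward orbit and a continuous function
`F : X → ℂ` with `F (T ^ n x) = f n` for all `n ∈ S`. -/
def WeakInterpolation (k : ℕ) (S : Set ℕ) : Prop :=
  ∀ f : S → Fin k,
    ∃ (X : Type u) (_ : MetricSpace X) (_ : CompactSpace X) (_ : MeasurableSpace X) (_ : BorelSpace X)
      (T : X → X) (x : X) (F : X → ℂ),
      Continuous T ∧ (∃! μ : Measure X, IsProbabilityMeasure μ ∧ MeasurePreserving T μ μ) ∧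
      DenseRange (fun n : ℕ => T^[n] x) ∧ Continuous F ∧ ∀ n : S, F (T^[(n : ℕ)] x) = ((f n : ℕ) : ℂ)

/-- `S` has upper Banach density `d`: the supremum over `m ≥ 0` of
`#(S ∩ {m + 1, ..., m + N}) / N` tends to `d` as `N → ∞`. -/
def HasUpperBanachDensity (S : Set ℕ) (d : ℝ) : Prop :=
  Tendsto (fun N : ℕ => ⨆ m : ℕ, ((S ∩ Set.Ioc m (m + N)).ncard : ℝ) / N) atTop (𝓝 d)

/-- `k ≥ 2` is impossible -/
theorem no_set {k : ℕ} (hk : 2 ≤ k) {S : Set ℕ} (hS : HasUpperBanachDensity S (1 / k))
    (hW : WeakInterpolation.{u} k S) : False := by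
  have hS' : Pool.Agent.R202.WI.HasUpperBanachDensity S (1 / k) := hS
  obtain ⟨n, hn, hgap⟩ := Pool.Agent.R202.WI.gap hk hS'
  obtain ⟨f, hfk, hf⟩ := Pool.Agent.R202.WI.test_function (show 0 < k by omega) hS'
  obtain ⟨X, i1, i2, i3, i4, T, x, F, hT, hν, _, hF, hFf⟩ := hW fun n => ⟨f n, hfk n⟩
  obtain ⟨ν, ⟨hν1, hν2⟩, hν3⟩ := hν
  exact Pool.Agent.R202.WI.core hk hn hgap hf hT hν2 (fun μ h1 h2 => hν3 μ ⟨h1, h2⟩) x hF
    fun n hn => hFf ⟨n, hn⟩

/-- all positive integers, `k = 1` -/
theorem density_one : HasUpperBanachDensity (Set.Ici 1) 1 := by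
  have h : ∀ N : ℕ, 1 ≤ N → (⨆ m : ℕ, ((Set.Ici 1 ∩ Set.Ioc m (m + N)).ncard : ℝ) / N) = 1 := by
    intro N hN
    have h1 : ∀ m : ℕ, ((Set.Ici 1 ∩ Set.Ioc m (m + N)).ncard : ℝ) / N = 1 := by
      intro m
      have h2 : Set.Ici 1 ∩ Set.Ioc m (m + N) = ((Finset.Ioc m (m + N) : Finset ℕ) : Set ℕ) := by
        ext n
        simp only [mem_inter_iff, mem_Ici, mem_Ioc, Finset.coe_Ioc]
        omega
      rw [h2, Set.ncard_coe_finset, Nat.card_Ioc, show m + N - m = N by omega]
      exact div_self (by positivity)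
    simp_rw [h1]
    exact ciSup_const
  refine Tendsto.congr' ?_ tendsto_const_nhds
  filter_upwards [eventually_ge_atTop 1] with N hN
  exact (h N hN).symm

theorem order_one (S : Set ℕ) : WeakInterpolation.{u} 1 S := by
  intro f
  letI : MeasurableSpace PUnit.{u + 1} := borel _
  haveI : BorelSpace PUnit.{u + 1} := ⟨rfl⟩
  refine ⟨PUnit.{u + 1}, inferInstance, inferInstance, inferInstance, inferInstance, _root_.id, PUnit.unit,
    fun _ => 0, continuous_id, ?_, ?_, continuous_const, fun n => ?_⟩
  · refine ⟨Measure.dirac PUnit.unit, ⟨inferInstance, MeasurePreserving.id _⟩, ?_⟩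
    rintro μ ⟨h1, _⟩
    ext E _
    rcases Set.eq_empty_or_nonempty E with h | h
    · rw [h]
      simp
    · have : E = univ := by
        ext y
        obtain ⟨z, hz⟩ := h
        simp only [mem_univ, iff_true]
        exact hz
      rw [this, measure_univ, measure_univ]
  · intro y
    refine subset_closure ?_
    exact ⟨0, rfl⟩
  · have : f n = 0 := Subsingleton.elim _ _
    rw [this]
    simp

/-- **Answer to Question 1.** Let `k` be a positive integer. A set `S` of positive integers which is a weak
interpolation set of order `k` for uniquely ergodic systems and has upper Banach density exactly `1 / k`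
exists if and only if `k = 1`. -/
theorem result (k : ℕ) (hk : 1 ≤ k) :
    (∃ S : Set ℕ, (∀ n ∈ S, 1 ≤ n) ∧ WeakInterpolation.{u} k S ∧ HasUpperBanachDensity S (1 / k)) ↔
      k = 1 := by
  constructor
  · rintro ⟨S, _, hW, hS⟩
    by_contra hne
    exact no_set (by omega) hS hW
  · rintro rfl
    refine ⟨Set.Ici 1, fun n hn => hn, order_one _, ?_⟩
    have := density_one
    rwa [show ((1 : ℝ) / ((1 : ℕ) : ℝ)) = 1 by norm_num]

end Pool.Agent.Results.MP_28fd2b_an.ReciprocalDensity
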